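import Pool.Agent.H.MP_e319d1_co.Cox

namespace Pool.Agent.Results.MP_e319d1_co.Median

open Pool.Agent.H.MP_e319d1_co

theorem result {B W : Type*} [Group W] (M : CoxeterMatrix B) (cs : CoxeterSystem M W)
    (hsl : ∀ s t, s ≠ t → M s t = 2 ∨ M s t = 3) (α : List B) (hα : cs.IsReduced α) :
    (braidGraph M α).Connected ∧ ∀ u v w : Cls M α, ∃! m : Cls M α,
      (braidGraph M α).dist u m + (braidGraph M α).dist m v = (braidGraph M α).dist u v ∧
      (braidGraph M α).dist v m + (braidGraph M α).dist m w = (braidGraph M α).dist v w ∧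
      (braidGraph M α).dist u m + (braidGraph M α).dist m w = (braidGraph M α).dist u w :=
  ⟨conn α, ((toTok cs hsl hα).toSys ⟨α, Relation.ReflTransGen.refl⟩).median⟩

end Pool.Agent.Results.MP_e319d1_co.Median
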